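import Pool.Agent.H384R3.SPk.TaskC

/-!
The majorant property of the `L^(2k)` norm.
-/

set_option autoImplicit false

namespace Pool.Agent.Y849.LW

open Finset Pool.Agent.H384R3.SPk.C

/-- Parseval for finite sums with complex coefficients -/
theorem parsevalC (S : Finset ℤ) (r : ℤ → ℂ) :
    ∫ x in (0:ℝ)..1, ‖∑ s ∈ S, r s * e s x‖ ^ 2 = ∑ s ∈ S, ‖r s‖ ^ 2 := by
  have h1 : ((∫ x in (0:ℝ)..1, ‖∑ s ∈ S, r s * e s x‖ ^ 2 : ℝ) : ℂ) =
      ((∑ s ∈ S, ‖r s‖ ^ 2 : ℝ) : ℂ) := by
    rw [← intervalIntegral.integral_ofReal]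
    have h2 : ∀ x : ℝ, ((‖∑ s ∈ S, r s * e s x‖ ^ 2 : ℝ) : ℂ) =
        ∑ s ∈ S, ∑ t ∈ S, (r s * (starRingEnd ℂ) (r t)) * e (s - t) x := by
      intro x
      push_cast
      rw [← Complex.mul_conj', map_sum, sum_mul_sum]
      refine sum_congr rfl fun s _ => sum_congr rfl fun t _ => ?_
      rw [map_mul, e_conj, sub_eq_add_neg, e_add]
      ring
    simp_rw [h2]
    rw [intervalIntegral.integral_finsetSum]
    · push_cast
      refine sum_congr rfl fun s hs => ?_
      rw [intervalIntegral.integral_finsetSum]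
      · have h3 : ∀ t ∈ S, (∫ x in (0:ℝ)..1, (r s * (starRingEnd ℂ) (r t)) * e (s - t) x) =
            if t = s then ((‖r s‖ : ℂ)) ^ 2 else 0 := by
          intro t _
          rw [intervalIntegral.integral_const_mul, ortho]
          by_cases h : t = s
          · subst h
            simp [Complex.mul_conj']
          · have : s - t ≠ 0 := fun h' => h (by omega)
            simp [h, this]
        rw [sum_congr rfl h3, sum_ite_eq' S s]
        simp [hs]
      · intro t _
        exact ((e_cont _).const_mul _ |>.intervalIntegrable _ _)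
    · intro s _
      refine Continuous.intervalIntegrable ?_ _ _
      exact continuous_finsetSum _ fun t _ => (e_cont _).const_mul _
  exact_mod_cast h1

/-- the `2k`-th moment as a sum over the `k`-fold sumset -/
theorem moment (k : ℕ) (A : Finset ℤ) (a : ℤ → ℂ) :
    ∫ x in (0:ℝ)..1, ‖∑ n ∈ A, a n * e n x‖ ^ (2 * k) =
      ∑ s ∈ (Fintype.piFinset fun _ : Fin k => A).image (fun f => ∑ i, f i),
        ‖∑ f ∈ (Fintype.piFinset fun _ : Fin k => A) with ∑ i, f i = s, ∏ i, a (f i)‖ ^ 2 := by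
  classical
  set T := Fintype.piFinset (fun _ : Fin k => A) with hT
  set r : ℤ → ℂ := fun s => ∑ f ∈ T with ∑ i, f i = s, ∏ i, a (f i) with hr
  have hmaps : ∀ f ∈ T, (∑ i, f i) ∈ T.image (fun f => ∑ i, f i) := by
    intro f hf
    exact mem_image_of_mem _ hf
  have hpow : ∀ x, (∑ n ∈ A, a n * e n x) ^ k =
      ∑ s ∈ T.image (fun f => ∑ i, f i), r s * e s x := by
    intro x
    have h1 : (∑ n ∈ A, a n * e n x) ^ k = ∑ f ∈ T, ∏ i, (a (f i) * e (f i) x) := by
      have := Finset.prod_univ_sum (fun _ : Fin k => A) (fun _ n => a n * e n x)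
      rw [← this]
      simp
    rw [h1, ← Finset.sum_fiberwise_of_maps_to hmaps]
    refine sum_congr rfl fun s _ => ?_
    rw [hr]
    simp only
    rw [sum_mul]
    refine sum_congr rfl fun f hf => ?_
    rw [prod_mul_distrib, ← e_sum, (mem_filter.1 hf).2]
  rw [← parsevalC]
  congr 1
  ext x
  rw [← hpow, norm_pow, ← pow_mul, mul_comm]

/-- the majorant property -/
theorem majorant (k : ℕ) (A : Finset ℤ) (a : ℤ → ℂ) :
    ∫ x in (0:ℝ)..1, ‖∑ n ∈ A, a n * e n x‖ ^ (2 * k) ≤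
      ∫ x in (0:ℝ)..1, ‖∑ n ∈ A, ((‖a n‖ : ℝ) : ℂ) * e n x‖ ^ (2 * k) := by
  rw [moment, moment k A fun n => ((‖a n‖ : ℝ) : ℂ)]
  apply Finset.sum_le_sum
  intro s _
  apply pow_le_pow_left₀ (norm_nonneg _)
  refine (norm_sum_le _ _).trans ?_
  have e1 : (∑ f ∈ (Fintype.piFinset fun _ : Fin k => A) with ∑ i, f i = s,
      ∏ i, ((‖a (f i)‖ : ℝ) : ℂ)) =
      ((∑ f ∈ (Fintype.piFinset fun _ : Fin k => A) with ∑ i, f i = s, ‖∏ i, a (f i)‖ : ℝ) : ℂ) := by
    push_cast
    refine sum_congr rfl fun f _ => ?_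
    rw [norm_prod]
    push_cast
    rfl
  rw [e1, Complex.norm_real, Real.norm_eq_abs]
  exact le_abs_self _

end Pool.Agent.Y849.LW
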