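import Pool.Agent.Y849.LW.Main

/-!
Sums of dilates of subsets of `Λ(2k)` sets; the integral form of the bound.
-/

set_option autoImplicit false

namespace Pool.Agent.Y849.LW

open Finset Pool.Agent.H384R3.SPk

/-- the indicator function of a finite set -/
noncomputable def ind (C : Finset ℤ) : ℤ →₀ ℝ :=
  Finsupp.onFinset C (fun n => if n ∈ C then 1 else 0) (fun n hn => by
    by_contra h
    exact hn (if_neg h))

theorem ind_apply (C : Finset ℤ) (n : ℤ) : ind C n = if n ∈ C then 1 else 0 := rfl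

theorem ind_support (C : Finset ℤ) : (ind C).support ⊆ C := by
  intro n hn
  rw [Finsupp.mem_support_iff, ind_apply] at hn
  by_contra h
  exact hn (if_neg h)

/-- the restriction of a function to a finite set -/
noncomputable def res (C : Finset ℤ) (a : ℤ → ℝ) : ℤ →₀ ℝ :=
  Finsupp.onFinset C (fun n => if n ∈ C then a n else 0) (fun n hn => by
    by_contra h
    exact hn (if_neg h))

theorem res_apply (C : Finset ℤ) (a : ℤ → ℝ) (n : ℤ) :
    res C a n = if n ∈ C then a n else 0 := rfl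

theorem res_support (C : Finset ℤ) (a : ℤ → ℝ) : (res C a).support ⊆ C := by
  intro n hn
  rw [Finsupp.mem_support_iff, res_apply] at hn
  by_contra h
  exact hn (if_neg h)

/-- sums of dilates of subsets of a `Λ(2k)` set -/
theorem lam_sum {k : ℕ} (hk : 1 ≤ k) (B : Fin k → Finset ℤ) (L : Fin k → ℝ) (hL : ∀ i, 0 ≤ L i)
    (h : ∀ i, ∀ a : ℤ →₀ ℝ, a.support ⊆ B i → N k a ≤ L i * ∑ n ∈ B i, a n ^ 2)
    (l : Fin k → ℤ) (hl : ∀ i, l i ≠ 0) (C : Fin k → Finset ℤ) (hC : ∀ i, C i ⊆ B i) :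
    ∏ i, ((C i).card : ℝ) ≤ (∏ i, L i) * (dilsum l C).card := by
  have h1 := H224R3.SPk.taskI k hk l C (fun i => ind (C i)) hl (fun i => ind_support (C i))
    (fun i n => by rw [ind_apply]; split_ifs <;> norm_num)
  have e1 : ∀ i, ∑ n ∈ C i, ind (C i) n = (C i).card := by
    intro i
    have : ∑ n ∈ C i, ind (C i) n = ∑ _n ∈ C i, (1:ℝ) :=
      Finset.sum_congr rfl fun n hn => by rw [ind_apply, if_pos hn]
    rw [this]; simp
  have e2 : ∀ i, N k (ind (C i)) ≤ L i * (C i).card := by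
    intro i
    refine (h i (ind (C i)) ((ind_support _).trans (hC i))).trans (le_of_eq ?_)
    congr 1
    have : ∑ n ∈ B i, ind (C i) n ^ 2 = ∑ n ∈ B i, if n ∈ C i then (1:ℝ) else 0 := by
      refine Finset.sum_congr rfl fun n _ => ?_
      rw [ind_apply]
      split_ifs <;> norm_num
    rw [this, ← Finset.sum_filter]
    have : (B i).filter (fun n => n ∈ C i) = C i := by
      ext n
      rw [Finset.mem_filter]
      exact ⟨fun h => h.2, fun h => ⟨hC i h, h⟩⟩
    rw [this]; simp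
  simp only [e1] at h1
  have h2 : ∏ i, N k (ind (C i)) ≤ ∏ i, (L i * ((C i).card : ℝ)) :=
    Finset.prod_le_prod (fun i _ => N_nonneg k _) fun i _ => e2 i
  rw [Finset.prod_mul_distrib] at h2
  have h3 : (∏ i, ((C i).card : ℝ)) ^ 2 ≤
      ((dilsum l C).card : ℝ) * ((∏ i, L i) * ∏ i, ((C i).card : ℝ)) :=
    h1.trans (mul_le_mul_of_nonneg_left h2 (by positivity))
  have hp0 : 0 ≤ ∏ i, ((C i).card : ℝ) := Finset.prod_nonneg fun i _ => by positivity
  rcases hp0.eq_or_lt with h4 | h4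
  · rw [← h4]
    have : 0 ≤ ∏ i, L i := Finset.prod_nonneg fun i _ => hL i
    positivity
  · have h5 : (∏ i, ((C i).card : ℝ)) * (∏ i, ((C i).card : ℝ)) ≤
        ((∏ i, L i) * (dilsum l C).card) * (∏ i, ((C i).card : ℝ)) := by
      rw [← sq]
      refine h3.trans (le_of_eq ?_)
      ring
    exact le_of_mul_le_mul_right h5 h4

/-- the integral form of the bound for the norm -/
theorem int_form {k : ℕ} (hk : 1 ≤ k) {B : Finset ℤ} {L : ℝ}
    (h : ∀ a : ℤ →₀ ℝ, a.support ⊆ B → N k a ≤ L * ∑ n ∈ B, a n ^ 2) (a : ℤ → ℝ) :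
    ∫ x in (0:ℝ)..1, ‖∑ n ∈ B, (a n : ℂ) * Complex.exp (2 * Real.pi * Complex.I * n * x)‖ ^
      (2 * k) ≤ (L * ∑ n ∈ B, a n ^ 2) ^ k := by
  have h1 := h (res B a) (res_support B a)
  have e1 : ∑ n ∈ B, res B a n ^ 2 = ∑ n ∈ B, a n ^ 2 :=
    Finset.sum_congr rfl fun n hn => by rw [res_apply, if_pos hn]
  rw [e1] at h1
  have h2 := pow_le_pow_left₀ (N_nonneg k _) h1 k
  rw [N_pow k hk] at h2
  refine le_trans (le_of_eq ?_) h2
  unfold M
  congr 1
  ext x
  congr 2
  unfold F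
  rw [Finsupp.sum_of_support_subset (res B a) (res_support B a) _ (fun n _ => by simp)]
  refine Finset.sum_congr rfl fun n hn => ?_
  rw [res_apply, if_pos hn]

end Pool.Agent.Y849.LW
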