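import Pool.Agent.Y849.LW.Inv
import Pool.Agent.Y849.LW.Sum
import Pool.Agent.Y849.LW.Maj

/-!
The averaging argument: if `W` of the set of the inverses of `B` is large and `A B` is small then
all of `A` is a `Λ(2k)` set.
-/

set_option autoImplicit false

namespace Pool.Agent.Y849.LW

open Finset Pool.Agent.H384R3.SPk
open scoped Pointwise

theorem F_sum {ι : Type*} (X : Finset ι) (f : ι → ℤ →₀ ℝ) (x : ℝ) :
    F (∑ i ∈ X, f i) x = ∑ i ∈ X, F (f i) x := by
  classical
  induction X using Finset.induction_on with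
  | empty => simp [F_zero]
  | insert i X hi ih =>
    rw [Finset.sum_insert hi, Finset.sum_insert hi, ← ih]
    unfold F
    rw [Finsupp.sum_add_index']
    · intro a; simp
    · intro a b c; push_cast; ring

/-- the square of the `L^(2k)` norm of a sum -/
theorem N_sum_le {k : ℕ} (hk : 1 ≤ k) {ι : Type*} (X : Finset ι) (f : ι → ℤ →₀ ℝ) :
    N k (∑ i ∈ X, f i) ≤ X.card * ∑ i ∈ X, N k (f i) := by
  classical
  have hk0 : k ≠ 0 := by omega
  rcases X.eq_empty_or_nonempty with hX | hX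
  · rw [hX]
    simp [N_zero k hk]
  have hXc : (0:ℝ) < X.card := by exact_mod_cast hX.card_pos
  apply le_of_forall_pos_le_add
  intro ε hε
  set η : ℝ := ε / (X.card * X.card) with hη
  have hη0 : 0 < η := by positivity
  set ρ : ι → ℝ := fun i => N k (f i) + η with hρ
  have hρ0 : ∀ i, 0 < ρ i := fun i => by
    have := N_nonneg k (f i)
    simp only [hρ]
    linarith
  set D : ℝ := ∑ i ∈ X, ρ i with hD
  have hD0 : 0 < D := Finset.sum_pos (fun i _ => hρ0 i) hX
  have hsum1 : ∑ i ∈ X, ρ i / D = 1 := by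
    rw [← Finset.sum_div, ← hD, div_self hD0.ne']
  have hcont : ∀ i, Continuous fun x : ℝ => ‖F (f i) x‖ ^ (2 * k) := fun i =>
    (H224R3.SPk.F_cont (f i)).norm.pow _
  have hM : M k (∑ i ∈ X, f i) ≤ (X.card * D) ^ k := by
    have hpt : ∀ x : ℝ, ‖F (∑ i ∈ X, f i) x‖ ^ (2 * k) ≤
        (X.card * D) ^ k * ∑ i ∈ X, ρ i / D / ρ i ^ k * ‖F (f i) x‖ ^ (2 * k) := by
      intro x
      have h1 : ‖F (∑ i ∈ X, f i) x‖ ^ 2 ≤ X.card * ∑ i ∈ X, ‖F (f i) x‖ ^ 2 := by
        rw [F_sum]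
        calc ‖∑ i ∈ X, F (f i) x‖ ^ 2 ≤ (∑ i ∈ X, ‖F (f i) x‖) ^ 2 :=
              pow_le_pow_left₀ (norm_nonneg _) (norm_sum_le _ _) 2
          _ ≤ _ := sq_sum_le_card_mul_sum_sq
      have h2 : X.card * ∑ i ∈ X, ‖F (f i) x‖ ^ 2 =
          (X.card * D) * ∑ i ∈ X, ρ i / D * (‖F (f i) x‖ ^ 2 / ρ i) := by
        rw [mul_assoc, Finset.mul_sum (s := X) (a := D)]
        congr 1
        refine Finset.sum_congr rfl fun i _ => ?_
        have := (hρ0 i).ne'
        field_simp
      have h3 : (∑ i ∈ X, ρ i / D * (‖F (f i) x‖ ^ 2 / ρ i)) ^ k ≤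
          ∑ i ∈ X, ρ i / D * (‖F (f i) x‖ ^ 2 / ρ i) ^ k :=
        Real.pow_arith_mean_le_arith_mean_pow X _ _
          (fun i _ => div_nonneg (hρ0 i).le hD0.le) hsum1
          (fun i _ => div_nonneg (sq_nonneg _) (hρ0 i).le) k
      have h4 : ∀ i ∈ X, ρ i / D * (‖F (f i) x‖ ^ 2 / ρ i) ^ k =
          ρ i / D / ρ i ^ k * ‖F (f i) x‖ ^ (2 * k) := by
        intro i _
        rw [div_pow, ← pow_mul]
        ring
      rw [Finset.sum_congr rfl h4] at h3
      calc ‖F (∑ i ∈ X, f i) x‖ ^ (2 * k) = (‖F (∑ i ∈ X, f i) x‖ ^ 2) ^ k := by rw [pow_mul]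
        _ ≤ (X.card * ∑ i ∈ X, ‖F (f i) x‖ ^ 2) ^ k := pow_le_pow_left₀ (sq_nonneg _) h1 k
        _ = (X.card * D) ^ k * (∑ i ∈ X, ρ i / D * (‖F (f i) x‖ ^ 2 / ρ i)) ^ k := by
            rw [h2, mul_pow]
        _ ≤ _ := mul_le_mul_of_nonneg_left h3 (by positivity)
    have hi1 : IntervalIntegrable (fun x : ℝ => ‖F (∑ i ∈ X, f i) x‖ ^ (2 * k))
        MeasureTheory.volume 0 1 :=
      ((H224R3.SPk.F_cont _).norm.pow _).intervalIntegrable _ _
    have hi2 : IntervalIntegrable (fun x : ℝ => (X.card * D) ^ k *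
        ∑ i ∈ X, ρ i / D / ρ i ^ k * ‖F (f i) x‖ ^ (2 * k)) MeasureTheory.volume 0 1 :=
      (continuous_const.mul (continuous_finsetSum _ fun i _ =>
        continuous_const.mul (hcont i))).intervalIntegrable _ _
    have h5 := intervalIntegral.integral_mono_on zero_le_one hi1 hi2 (fun x _ => hpt x)
    unfold M
    refine h5.trans ?_
    have hi3 : ∀ i ∈ X, IntervalIntegrable
        (fun x : ℝ => ρ i / D / ρ i ^ k * ‖F (f i) x‖ ^ (2 * k)) MeasureTheory.volume 0 1 :=
      fun i _ => (continuous_const.mul (hcont i)).intervalIntegrable _ _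
    rw [intervalIntegral.integral_const_mul, intervalIntegral.integral_finsetSum hi3]
    have h6 : ∑ i ∈ X, ∫ x in (0:ℝ)..1, ρ i / D / ρ i ^ k * ‖F (f i) x‖ ^ (2 * k) ≤ 1 := by
      refine le_trans (Finset.sum_le_sum (g := fun i => ρ i / D) fun i _ => ?_) hsum1.le
      rw [intervalIntegral.integral_const_mul]
      have h7 : ∫ x in (0:ℝ)..1, ‖F (f i) x‖ ^ (2 * k) ≤ ρ i ^ k := by
        have : M k (f i) ≤ ρ i ^ k := by
          rw [← N_pow k hk]
          apply pow_le_pow_left₀ (N_nonneg k _)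
          simp only [hρ]
          linarith
        exact this
      have h8 : 0 < ρ i ^ k := pow_pos (hρ0 i) k
      have h9 : 0 ≤ ρ i / D / ρ i ^ k := div_nonneg (div_nonneg (hρ0 i).le hD0.le) h8.le
      refine (mul_le_mul_of_nonneg_left h7 h9).trans (le_of_eq ?_)
      exact div_mul_cancel₀ _ h8.ne'
    calc (X.card * D) ^ k * _ ≤ (X.card * D) ^ k * 1 :=
          mul_le_mul_of_nonneg_left h6 (by positivity)
      _ = _ := mul_one _
  rw [← N_pow k hk] at hM
  have h9 := le_of_pow_le_pow_left₀ hk0 (by positivity) hM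
  have h10 : D = ∑ i ∈ X, N k (f i) + X.card * η := by
    rw [hD]
    simp only [hρ]
    rw [Finset.sum_add_distrib, Finset.sum_const, nsmul_eq_mul]
  have h11 : X.card * (X.card * η) = ε := by
    rw [hη]
    field_simp
  calc N k (∑ i ∈ X, f i) ≤ X.card * D := h9
    _ = X.card * ∑ i ∈ X, N k (f i) + X.card * (X.card * η) := by rw [h10]; ring
    _ = _ := by rw [h11]

/-- transfer of an admissible weight to a multiplicative translate -/
theorem trans_N {k : ℕ} {C : Finset ℤ} {w : ℤ →₀ ℝ}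
    (w4 : ∀ h : ℤ → ℝ, N k (mu w h) ≤ ∑ n ∈ C, w n * h n ^ 2) (T : Finset ℤ)
    (φ : ℤ → ℤ) (hφ : ∀ a ∈ T, φ a ∈ C) {x N₀ : ℤ} (hx : x ≠ 0) (hN₀ : N₀ ≠ 0)
    (hxφ : ∀ a ∈ T, x * φ a = N₀ * a) (h : ℤ → ℝ) :
    N k (res T fun a => w (φ a) * h a) ≤ ∑ a ∈ T, w (φ a) * h a ^ 2 := by
  classical
  have hinj : Set.InjOn φ (T : Set ℤ) := by
    intro a ha b hb hab
    have h1 := hxφ a ha
    have h2 := hxφ b hb
    rw [hab, h2] at h1
    exact (mul_left_cancel₀ hN₀ h1).symm
  have hTC : T.image φ ⊆ C := by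
    intro c hc
    obtain ⟨a, ha, rfl⟩ := Finset.mem_image.1 hc
    exact hφ a ha
  set h' : ℤ → ℝ := fun c => ∑ a ∈ T, if φ a = c then h a else 0 with hh'
  have hh1 : ∀ a ∈ T, h' (φ a) = h a := by
    intro a ha
    rw [hh']
    simp only
    rw [Finset.sum_eq_single a]
    · rw [if_pos rfl]
    · intro b hb hba
      rw [if_neg fun h => hba (hinj hb ha h)]
    · intro h; exact absurd ha h
  have hh0 : ∀ c, c ∉ T.image φ → h' c = 0 := by
    intro c hc
    rw [hh']
    simp only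
    apply Finset.sum_eq_zero
    intro a ha
    rw [if_neg]
    intro h
    exact hc (h ▸ Finset.mem_image_of_mem φ ha)
  have hgs : (mu w h').support ⊆ T.image φ := by
    intro c hc
    rw [Finsupp.mem_support_iff, mu_apply] at hc
    by_contra h
    exact hc (by rw [hh0 c h, mul_zero])
  have hFf : ∀ y : ℝ, F (res T fun a => w (φ a) * h a) ((N₀ : ℝ) * y) =
      F (mu w h') ((x : ℝ) * y) := by
    intro y
    rw [H224R3.SPk.F_eq _ T (res_support _ _), H224R3.SPk.F_eq (mu w h') (T.image φ) hgs,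
      Finset.sum_image hinj]
    refine Finset.sum_congr rfl fun a ha => ?_
    rw [H224R3.SPk.e_mul, H224R3.SPk.e_mul, hxφ a ha, mu_apply, res_apply, if_pos ha, hh1 a ha]
  have hM : M k (res T fun a => w (φ a) * h a) = M k (mu w h') := by
    rw [← H224R3.SPk.M_dil k _ N₀ hN₀, ← H224R3.SPk.M_dil k (mu w h') x hx]
    congr 1
    ext y
    rw [hFf]
  have hNe : N k (res T fun a => w (φ a) * h a) = N k (mu w h') := by
    unfold N
    rw [hM]
  rw [hNe]
  refine (w4 h').trans (le_of_eq ?_)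
  have h2 : ∑ n ∈ C, w n * h' n ^ 2 = ∑ n ∈ T.image φ, w n * h' n ^ 2 := by
    symm
    apply Finset.sum_subset hTC
    intro n _ hn
    rw [hh0 n hn]
    ring
  rw [h2, Finset.sum_image hinj]
  refine Finset.sum_congr rfl fun n hn => ?_
  rw [hh1 n hn]

/-- **The averaging argument.** -/
theorem average {k : ℕ} (hk : 1 ≤ k) {A B : Finset ℤ} (hA0 : (0 : ℤ) ∉ A)
    (hBp : ∀ b ∈ B, 0 < b) (a : ℤ →₀ ℝ) (ha : a.support ⊆ A) :
    W k (inv B) * N k a ≤ (A * B).card * ∑ n ∈ A, a n ^ 2 := by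
  classical
  have hN : 0 < tot B := tot_pos hBp
  have hS0 : 0 ≤ ∑ n ∈ A, a n ^ 2 := Finset.sum_nonneg fun n _ => sq_nonneg _
  have key : ∀ ρ, GW k (inv B) ρ → ρ * N k a ≤ (A * B).card * ∑ n ∈ A, a n ^ 2 := by
    intro ρ hρ
    rcases (GW_nonneg hρ).eq_or_lt with h0 | hρ0
    · rw [← h0, zero_mul]
      positivity
    obtain ⟨w, w1, w2, w3, w4⟩ := hρ
    -- the weights of the element `m` over the dilates
    have e2 : ∀ m ∈ A, ∑ x ∈ A * B, (if m ∣ x ∧ x / m ∈ B then w (tot B / (x / m)) else 0) =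
        ρ := by
      intro m hm
      have hm0 : m ≠ 0 := fun h => hA0 (h ▸ hm)
      rw [← Finset.sum_filter]
      have e3 : (A * B).filter (fun x => m ∣ x ∧ x / m ∈ B) = B.image (fun b => m * b) := by
        ext x
        rw [Finset.mem_filter, Finset.mem_image]
        constructor
        · rintro ⟨_, h1, h2⟩
          exact ⟨x / m, h2, Int.mul_ediv_cancel' h1⟩
        · rintro ⟨b, hb, rfl⟩
          refine ⟨Finset.mul_mem_mul hm hb, dvd_mul_right m b, ?_⟩
          rwa [Int.mul_ediv_cancel_left _ hm0]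
      rw [e3, Finset.sum_image (fun b _ c _ h => mul_left_cancel₀ hm0 h), ← w3]
      unfold inv
      rw [Finset.sum_image (inv_injOn hBp)]
      refine Finset.sum_congr rfl fun b _ => ?_
      rw [Int.mul_ediv_cancel_left _ hm0]
    set Tx : ℤ → Finset ℤ := fun x => A.filter (fun m => m ∣ x ∧ x / m ∈ B) with hTx
    set f : ℤ → ℤ →₀ ℝ := fun x => res (Tx x) fun m => w (tot B / (x / m)) * a m with hf
    have hsum : ∑ x ∈ A * B, f x = ρ • a := by
      ext m
      rw [Finsupp.finsetSum_apply, Finsupp.smul_apply, smul_eq_mul]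
      by_cases hm : m ∈ A
      · have h1 : ∀ x ∈ A * B, f x m =
            (if m ∣ x ∧ x / m ∈ B then w (tot B / (x / m)) else 0) * a m := by
          intro x _
          simp only [hf, res_apply, hTx, Finset.mem_filter]
          by_cases hc : m ∣ x ∧ x / m ∈ B
          · rw [if_pos ⟨hm, hc⟩, if_pos hc]
          · rw [if_neg (fun h => hc h.2), if_neg hc, zero_mul]
        rw [Finset.sum_congr rfl h1, ← Finset.sum_mul, e2 m hm]
      · have h1 : a m = 0 := by
          by_contra hne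
          exact hm (ha (Finsupp.mem_support_iff.2 hne))
        rw [h1, mul_zero]
        apply Finset.sum_eq_zero
        intro x _
        simp only [hf, res_apply, h1, mul_zero, ite_self]
    have hle : ∀ x ∈ A * B, N k (f x) ≤ ∑ m ∈ A,
        (if m ∣ x ∧ x / m ∈ B then w (tot B / (x / m)) else 0) * a m ^ 2 := by
      intro x hx
      have hx0 : x ≠ 0 := by
        obtain ⟨m, hm, b, hb, rfl⟩ := Finset.mem_mul.1 hx
        exact mul_ne_zero (fun h => hA0 (h ▸ hm)) (hBp b hb).ne'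
      have h1 := trans_N w4 (Tx x) (fun m => tot B / (x / m))
        (fun m hm => Finset.mem_image_of_mem _ (Finset.mem_filter.1 hm).2.2) hx0 hN.ne'
        (fun m hm => by
          obtain ⟨_, h1, h2⟩ := Finset.mem_filter.1 hm
          have h3 := mul_inv_eq h2
          have h4 := Int.mul_ediv_cancel' h1
          calc x * (tot B / (x / m)) = (m * (x / m)) * (tot B / (x / m)) := by rw [h4]
            _ = m * ((x / m) * (tot B / (x / m))) := by ring
            _ = tot B * m := by rw [h3, mul_comm]) a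
      refine h1.trans (le_of_eq ?_)
      rw [hTx, Finset.sum_filter]
      refine Finset.sum_congr rfl fun m _ => ?_
      split_ifs <;> simp
    have h1 := N_sum_le hk (A * B) f
    rw [hsum, N_smul k hk] at h1
    have h2 : ∑ x ∈ A * B, N k (f x) ≤ ρ * ∑ n ∈ A, a n ^ 2 := by
      refine (Finset.sum_le_sum hle).trans (le_of_eq ?_)
      rw [Finset.sum_comm, Finset.mul_sum]
      refine Finset.sum_congr rfl fun m hm => ?_
      rw [← Finset.sum_mul, e2 m hm]
    have h3 : ρ ^ 2 * N k a ≤ (A * B).card * (ρ * ∑ n ∈ A, a n ^ 2) :=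
      h1.trans (mul_le_mul_of_nonneg_left h2 (by positivity))
    have h4 : ρ * (ρ * N k a) ≤ ρ * ((A * B).card * ∑ n ∈ A, a n ^ 2) := by
      calc ρ * (ρ * N k a) = ρ ^ 2 * N k a := by ring
        _ ≤ _ := h3
        _ = _ := by ring
    exact le_of_mul_le_mul_left h4 hρ0
  rcases (N_nonneg k a).eq_or_lt with h0 | hpos
  · rw [← h0, mul_zero]
    positivity
  · rw [← le_div_iff₀ hpos]
    apply csSup_le ⟨0, GW_zero k hk _⟩
    intro ρ hρ
    rw [le_div_iff₀ hpos]
    exact key ρ hρ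

end Pool.Agent.Y849.LW
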