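import Pool.Agent.Y849.LW.Dec

/-!
The final form.
-/

set_option autoImplicit false

namespace Pool.Agent.Y849.LW

open Finset Pool.Agent.H384R3.SPk
open scoped Pointwise

theorem W_ge {k n : ℕ} (hk : 2 ≤ k) (hn : 2 ≤ n) {β : ℝ} (h : Cond k n β)
    {A : Finset ℤ} (hA : A.Nonempty) (hAp : ∀ a ∈ A, 0 < a) :
    (A.card : ℝ) ≤ (((prodset fun _ : Fin n => A).card : ℝ) / A.card) ^ β * W k A := by
  have h1 := single_W hk hn h A hA hAp
  have hc : (0:ℝ) < A.card := by exact_mod_cast hA.card_pos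
  rw [Real.rpow_add hc, Real.rpow_one] at h1
  rw [Real.div_rpow (by positivity) hc.le, div_mul_eq_mul_div, le_div_iff₀ (by positivity)]
  linarith

theorem W_inv_ge {k n : ℕ} (hk : 2 ≤ k) (hn : 2 ≤ n) {β : ℝ} (h : Cond k n β)
    {B : Finset ℤ} (hB : B.Nonempty) (hBp : ∀ b ∈ B, 0 < b) :
    (B.card : ℝ) ≤ (((prodset fun _ : Fin n => B).card : ℝ) / B.card) ^ β * W k (inv B) := by
  have hβ := h.pos hk hn
  have h1 := W_ge hk hn h (inv_nonempty hB) (inv_pos hBp)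
  rw [inv_card hBp] at h1
  have hc : (0:ℝ) < B.card := by exact_mod_cast hB.card_pos
  have h2 : (((prodset fun _ : Fin n => inv B).card : ℝ) / B.card) ^ β ≤
      (((prodset fun _ : Fin n => B).card : ℝ) / B.card) ^ β := by
    apply Real.rpow_le_rpow (by positivity) _ hβ.le
    apply div_le_div_of_nonneg_right _ hc.le
    exact_mod_cast prodset_inv (fun _ : Fin n => B) fun _ => hBp
  exact h1.trans (mul_le_mul_of_nonneg_right h2 (W_nonneg (by omega) _))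

/-- the `Λ(2k)` inequality for real coefficients -/
theorem lambda {k n : ℕ} (hk : 2 ≤ k) (hn : 2 ≤ n) {β : ℝ} (h : Cond k n β)
    {A B : Finset ℤ} (hA0 : (0 : ℤ) ∉ A) (hB : B.Nonempty) (hBp : ∀ b ∈ B, 0 < b)
    (a : ℤ →₀ ℝ) (ha : a.support ⊆ A) :
    N k a ≤ ((A * B).card : ℝ) / B.card *
      (((prodset fun _ : Fin n => B).card : ℝ) / B.card) ^ β * ∑ m ∈ A, a m ^ 2 := by
  have hk1 : 1 ≤ k := by omega
  have h1 := W_inv_ge hk hn h hB hBp
  have h2 := average hk1 hA0 hBp a ha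
  have hc : (0:ℝ) < B.card := by exact_mod_cast hB.card_pos
  set Q : ℝ := (((prodset fun _ : Fin n => B).card : ℝ) / B.card) ^ β with hQ
  have hQ0 : 0 ≤ Q := by positivity
  have h3 : (B.card : ℝ) * N k a ≤ Q * ((A * B).card * ∑ m ∈ A, a m ^ 2) := by
    calc (B.card : ℝ) * N k a ≤ Q * W k (inv B) * N k a :=
          mul_le_mul_of_nonneg_right h1 (N_nonneg k a)
      _ = Q * (W k (inv B) * N k a) := by ring
      _ ≤ _ := mul_le_mul_of_nonneg_left h2 hQ0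
  have e : ((A * B).card : ℝ) / B.card * Q * ∑ m ∈ A, a m ^ 2 =
      Q * ((A * B).card * ∑ m ∈ A, a m ^ 2) / B.card := by
    ring
  rw [e, le_div_iff₀ hc]
  linarith

/-- the final theorem -/
theorem fin {k n : ℕ} (hk : 2 ≤ k) (hn : 2 ≤ n) {β : ℝ} (h : Cond k n β) :
    (∀ A B : Finset ℤ, (0 : ℤ) ∉ A → B.Nonempty → (∀ b ∈ B, 0 < b) → ∀ c : ℤ → ℂ,
      ∫ x in (0:ℝ)..1,
        ‖∑ m ∈ A, c m * Complex.exp (2 * Real.pi * Complex.I * m * x)‖ ^ (2 * k) ≤
          (((A * B).card : ℝ) / B.card *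
            (((prodset fun _ : Fin n => B).card : ℝ) / B.card) ^ β * ∑ m ∈ A, ‖c m‖ ^ 2) ^ k) ∧
    (∀ A B : Fin k → Finset ℤ, (∀ i, (0 : ℤ) ∉ A i) → (∀ i, (B i).Nonempty) →
      (∀ i, ∀ b ∈ B i, 0 < b) → ∀ l : Fin k → ℤ, (∀ i, l i ≠ 0) →
      ∏ i, ((A i).card : ℝ) ≤ (∏ i, ((A i * B i).card : ℝ) / (B i).card *
        (((prodset fun _ : Fin n => B i).card : ℝ) / (B i).card) ^ β) * (dilsum l A).card) := by
  have hk1 : 1 ≤ k := by omega
  constructor
  · intro A B hA0 hB hBp c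
    refine (majorant k A c).trans ?_
    have h4 := int_form hk1 (lambda hk hn h hA0 hB hBp) fun m => ‖c m‖
    exact h4
  · intro A B hA0 hB hBp l hl
    exact lam_sum hk1 A _ (fun i => by positivity)
      (fun i => lambda hk hn h (hA0 i) (hB i) (hBp i)) l hl A fun i => subset_rfl

end Pool.Agent.Y849.LW
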