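import Pool.Agent.H384R3.SPk.Mix
import Pool.Agent.H224R3.SPk.TaskI

/-!
The functional `W k A`: the largest total mass of a weight `w` on `A` such that the exponential sum
with coefficients `w h` has `L^(2k)` norm at most `(∑ w h²)^(1/2)` for every function `h`.
-/

set_option autoImplicit false

namespace Pool.Agent.Y849.LW

open Finset Pool.Agent.H384R3.SPk

/-- the function `w h` -/
noncomputable def mu (w : ℤ →₀ ℝ) (h : ℤ → ℝ) : ℤ →₀ ℝ :=
  Finsupp.onFinset w.support (fun n => w n * h n) (fun n hn => by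
    rw [Finsupp.mem_support_iff]; intro h0; exact hn (by rw [h0, zero_mul]))

theorem mu_apply (w : ℤ →₀ ℝ) (h : ℤ → ℝ) (n : ℤ) : mu w h n = w n * h n := rfl

theorem mu_support (w : ℤ →₀ ℝ) (h : ℤ → ℝ) : (mu w h).support ⊆ w.support := by
  intro n hn
  rw [Finsupp.mem_support_iff, mu_apply] at hn
  rw [Finsupp.mem_support_iff]
  exact left_ne_zero_of_mul hn

theorem mu_one (w : ℤ →₀ ℝ) : mu w (fun _ => 1) = w := by
  ext n
  rw [mu_apply, mul_one]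

theorem mu_add_smul (w w' : ℤ →₀ ℝ) (c : ℝ) (h : ℤ → ℝ) :
    mu (w + c • w') h = mu w h + c • mu w' h := by
  ext n
  simp only [mu_apply, Finsupp.add_apply, Finsupp.smul_apply, smul_eq_mul]
  ring

/-- `w` is an admissible weight on `A` of total mass `ρ` -/
def GW (k : ℕ) (A : Finset ℤ) (ρ : ℝ) : Prop :=
  ∃ w : ℤ →₀ ℝ, (∀ n, 0 ≤ w n) ∧ w.support ⊆ A ∧ ∑ n ∈ A, w n = ρ ∧
    ∀ h : ℤ → ℝ, N k (mu w h) ≤ ∑ n ∈ A, w n * h n ^ 2

/-- the functional `W` -/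
noncomputable def W (k : ℕ) (A : Finset ℤ) : ℝ := sSup {ρ | GW k A ρ}

theorem GW.toG {k : ℕ} {A : Finset ℤ} {ρ : ℝ} (h : GW k A ρ) : G k A ρ := by
  obtain ⟨w, h1, h2, h3, h4⟩ := h
  refine ⟨w, h1, h2, h3, ?_⟩
  have := h4 fun _ => 1
  rw [mu_one] at this
  simpa [h3] using this

theorem GW_nonneg {k : ℕ} {A : Finset ℤ} {ρ : ℝ} (h : GW k A ρ) : 0 ≤ ρ := G_nonneg h.toG

theorem GW_zero (k : ℕ) (hk : 1 ≤ k) (A : Finset ℤ) : GW k A 0 := by
  refine ⟨0, fun _ => le_rfl, by simp, by simp, fun h => ?_⟩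
  have : mu 0 h = 0 := by
    ext n
    rw [mu_apply]
    simp
  rw [this, N_zero k hk]
  simp

theorem N_single_real (k : ℕ) (hk : 1 ≤ k) (a : ℤ) (t : ℝ) :
    N k (Finsupp.single a t) = t ^ 2 := by
  have : Finsupp.single a t = t • Finsupp.single a (1 : ℝ) := by
    rw [Finsupp.smul_single, smul_eq_mul, mul_one]
  rw [this, N_smul k hk, N_single, mul_one]

theorem GW_one (k : ℕ) (hk : 1 ≤ k) {A : Finset ℤ} {a : ℤ} (ha : a ∈ A) : GW k A 1 := by
  classical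
  refine ⟨Finsupp.single a 1, fun n => ?_, ?_, ?_, fun h => ?_⟩
  · rw [Finsupp.single_apply]; split_ifs <;> norm_num
  · intro n hn
    rw [Finsupp.mem_support_iff, Finsupp.single_apply] at hn
    by_cases h : a = n
    · exact h ▸ ha
    · simp [h] at hn
  · simp [Finsupp.single_apply, ha]
  · have : mu (Finsupp.single a 1) h = Finsupp.single a (h a) := by
      ext n
      rw [mu_apply, Finsupp.single_apply, Finsupp.single_apply]
      by_cases hn : a = n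
      · simp [hn]
      · simp [hn]
    rw [this, N_single_real k hk]
    simp [Finsupp.single_apply, ha]

theorem GW_sub {k : ℕ} {A' A : Finset ℤ} (h : A' ⊆ A) {ρ : ℝ} (hG : GW k A' ρ) : GW k A ρ := by
  obtain ⟨w, h1, h2, h3, h4⟩ := hG
  have h0 : ∀ n ∈ A, n ∉ A' → w n = 0 := fun n _ hn => by
    by_contra hne
    exact hn (h2 (Finsupp.mem_support_iff.2 hne))
  refine ⟨w, h1, h2.trans h, ?_, fun g => ?_⟩
  · rw [← h3]
    exact (Finset.sum_subset h h0).symm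
  · refine (h4 g).trans (le_of_eq ?_)
    exact Finset.sum_subset h fun n hn hn' => by rw [h0 n hn hn', zero_mul]

theorem GW_comb {k m : ℕ} (hk : 1 ≤ k) (hm : 1 ≤ m)
    {A A₀ A₁ : Finset ℤ} (h0 : A₀ ⊆ A) (h1 : A₁ ⊆ A)
    (hm0 : ∀ n ∈ A₀, ¬ (m : ℤ) ∣ n) (hm1 : ∀ n ∈ A₁, (m : ℤ) ∣ n) {ρ σ : ℝ}
    (hρ : GW k A₁ ρ) (hσ : GW k A₀ σ) : GW k A (ρ + σ / (2 * k - 1)) := by
  obtain ⟨g, g1, g2, g3, g4⟩ := hρ
  obtain ⟨f, f1, f2, f3, f4⟩ := hσ
  have hk1 : (1:ℝ) ≤ k := by exact_mod_cast hk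
  have hc : (0:ℝ) < 2 * k - 1 := by linarith
  have zg : ∀ n ∈ A, n ∉ A₁ → g n = 0 := fun n _ hn => by
    by_contra hne
    exact hn (g2 (Finsupp.mem_support_iff.2 hne))
  have zf : ∀ n ∈ A, n ∉ A₀ → f n = 0 := fun n _ hn => by
    by_contra hne
    exact hn (f2 (Finsupp.mem_support_iff.2 hne))
  have sg : ∑ n ∈ A, g n = ρ := by
    rw [← g3]
    exact (Finset.sum_subset h1 zg).symm
  have sf : ∑ n ∈ A, f n = σ := by
    rw [← f3]
    exact (Finset.sum_subset h0 zf).symm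
  refine ⟨g + (1 / (2 * (k:ℝ) - 1)) • f, fun n => ?_, ?_, ?_, fun h => ?_⟩
  · rw [Finsupp.add_apply, Finsupp.smul_apply, smul_eq_mul]
    have := g1 n
    have := f1 n
    positivity
  · intro n hn
    rcases Finset.mem_union.1 (Finsupp.support_add hn) with h | h
    · exact h1 (g2 h)
    · exact h0 (f2 (Finsupp.support_smul h))
  · simp only [Finsupp.add_apply, Finsupp.smul_apply, smul_eq_mul]
    rw [Finset.sum_add_distrib, ← Finset.mul_sum, sg, sf]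
    ring
  · rw [mu_add_smul]
    have := smooth tA tB k m hk hm (mu g h) ((1 / (2 * (k:ℝ) - 1)) • mu f h)
      (fun n hn => hm1 n (g2 (mu_support g h hn)))
      (fun n hn => hm0 n (f2 (mu_support f h (Finsupp.support_smul hn))))
    rw [N_smul k hk] at this
    have e : (2 * (k:ℝ) - 1) * ((1 / (2 * (k:ℝ) - 1)) ^ 2 * N k (mu f h)) =
        N k (mu f h) / (2 * k - 1) := by
      field_simp
    rw [e] at this
    have h5 : N k (mu f h) / (2 * k - 1) ≤ (∑ n ∈ A₀, f n * h n ^ 2) / (2 * k - 1) := by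
      have := f4 h
      gcongr
    have h6 := g4 h
    have e1 : ∑ n ∈ A₁, g n * h n ^ 2 = ∑ n ∈ A, g n * h n ^ 2 :=
      Finset.sum_subset h1 fun n hn hn' => by rw [zg n hn hn', zero_mul]
    have e0 : ∑ n ∈ A₀, f n * h n ^ 2 = ∑ n ∈ A, f n * h n ^ 2 :=
      Finset.sum_subset h0 fun n hn hn' => by rw [zf n hn hn', zero_mul]
    have e2 : ∑ n ∈ A, (g + (1 / (2 * (k:ℝ) - 1)) • f) n * h n ^ 2 =
        ∑ n ∈ A, g n * h n ^ 2 + (∑ n ∈ A, f n * h n ^ 2) / (2 * k - 1) := by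
      rw [Finset.sum_div, ← Finset.sum_add_distrib]
      refine Finset.sum_congr rfl fun n _ => ?_
      simp only [Finsupp.add_apply, Finsupp.smul_apply, smul_eq_mul]
      ring
    rw [e2, ← e1, ← e0]
    linarith

/-- an admissible weight is at most one -/
theorem w_le_one {k : ℕ} (hk : 1 ≤ k) {A : Finset ℤ} {w : ℤ →₀ ℝ} (h1 : ∀ n, 0 ≤ w n)
    (h4 : ∀ h : ℤ → ℝ, N k (mu w h) ≤ ∑ n ∈ A, w n * h n ^ 2) (hA : w.support ⊆ A) (a : ℤ) :
    w a ≤ 1 := by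
  classical
  rcases (h1 a).eq_or_lt with h0 | h0
  · rw [← h0]; exact zero_le_one
  · have ha : a ∈ A := hA (Finsupp.mem_support_iff.2 h0.ne')
    have h := h4 fun n => if n = a then 1 else 0
    have e : mu w (fun n => if n = a then 1 else 0) = Finsupp.single a (w a) := by
      ext n
      rw [mu_apply, Finsupp.single_apply]
      by_cases hn : n = a
      · simp [hn]
      · simp [hn, Ne.symm hn]
    rw [e, N_single_real k hk] at h
    have e2 : ∑ n ∈ A, w n * (if n = a then (1:ℝ) else 0) ^ 2 = w a := by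
      rw [Finset.sum_eq_single a]
      · simp
      · intro n _ hn
        simp [hn]
      · intro h; exact absurd ha h
    rw [e2] at h
    nlinarith

theorem GW_le {k : ℕ} (hk : 1 ≤ k) {A : Finset ℤ} {ρ : ℝ} (h : GW k A ρ) : ρ ≤ A.card := by
  obtain ⟨w, h1, h2, h3, h4⟩ := h
  rw [← h3]
  calc ∑ n ∈ A, w n ≤ ∑ _n ∈ A, (1:ℝ) := Finset.sum_le_sum fun n _ => w_le_one hk h1 h4 h2 n
    _ = A.card := by simp

theorem bddW {k : ℕ} (hk : 1 ≤ k) (A : Finset ℤ) : BddAbove {ρ | GW k A ρ} :=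
  ⟨_, fun _ hρ => GW_le hk hρ⟩

theorem W_le {k : ℕ} (hk : 1 ≤ k) (A : Finset ℤ) : W k A ≤ A.card :=
  csSup_le ⟨0, GW_zero k hk A⟩ fun _ hρ => GW_le hk hρ

theorem one_le_W {k : ℕ} (hk : 1 ≤ k) {A : Finset ℤ} (hA : A.Nonempty) : 1 ≤ W k A := by
  obtain ⟨a, ha⟩ := hA
  exact le_csSup (bddW hk A) (GW_one k hk ha)

theorem W_nonneg {k : ℕ} (hk : 1 ≤ k) (A : Finset ℤ) : 0 ≤ W k A :=
  le_csSup (bddW hk A) (GW_zero k hk A)

theorem W_sub {k : ℕ} (hk : 1 ≤ k) {A' A : Finset ℤ} (h : A' ⊆ A) : W k A' ≤ W k A :=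
  csSup_le_csSup (bddW hk A) ⟨0, GW_zero k hk A'⟩ fun _ hρ => GW_sub h hρ

theorem W_le_R {k : ℕ} (hk : 1 ≤ k) (A : Finset ℤ) : W k A ≤ R k A :=
  csSup_le_csSup (bdd tC hk A) ⟨0, GW_zero k hk A⟩ fun _ hρ => GW.toG hρ

theorem W_comb {k m : ℕ} (hk : 1 ≤ k) (hm : 1 ≤ m)
    {A A₀ A₁ : Finset ℤ} (h0 : A₀ ⊆ A) (h1 : A₁ ⊆ A)
    (hm0 : ∀ n ∈ A₀, ¬ (m : ℤ) ∣ n) (hm1 : ∀ n ∈ A₁, (m : ℤ) ∣ n) :
    W k A₁ + W k A₀ / (2 * k - 1) ≤ W k A := by
  have hk1 : (1:ℝ) ≤ k := by exact_mod_cast hk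
  have hc : (0:ℝ) < 2 * k - 1 := by linarith
  have key : ∀ σ, GW k A₀ σ → W k A₁ ≤ W k A - σ / (2 * k - 1) := by
    intro σ hσ
    apply csSup_le ⟨0, GW_zero k hk A₁⟩
    intro ρ hρ
    have := le_csSup (bddW hk A) (GW_comb hk hm h0 h1 hm0 hm1 hρ hσ)
    change ρ + σ / (2 * k - 1) ≤ W k A at this
    linarith
  have h2 : W k A₀ ≤ (W k A - W k A₁) * (2 * k - 1) := by
    apply csSup_le ⟨0, GW_zero k hk A₀⟩
    intro σ hσ
    have := key σ hσ
    have h3 : σ / (2 * k - 1) ≤ W k A - W k A₁ := by linarith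
    rwa [div_le_iff₀ hc] at h3
  have h3 : W k A₀ / (2 * k - 1) ≤ W k A - W k A₁ := by
    rw [div_le_iff₀ hc]; exact h2
  linarith

end Pool.Agent.Y849.LW
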