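import Pool.Agent.Y849.LW.Main

/-!
The set of the complementary divisors (a dilate of the set of the inverses).
-/

set_option autoImplicit false

namespace Pool.Agent.Y849.LW

open Finset Pool.Agent.H384R3.SPk

/-- the product of all the elements -/
def tot (B : Finset ℤ) : ℤ := ∏ c ∈ B, c

/-- the set of the complementary divisors of the elements -/
def inv (B : Finset ℤ) : Finset ℤ := B.image fun b => tot B / b

theorem tot_pos {B : Finset ℤ} (hB : ∀ b ∈ B, 0 < b) : 0 < tot B := Finset.prod_pos hB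

theorem mul_inv_eq {B : Finset ℤ} {b : ℤ} (hb : b ∈ B) : b * (tot B / b) = tot B :=
  Int.mul_ediv_cancel' (Finset.dvd_prod_of_mem _ hb)

theorem inv_injOn {B : Finset ℤ} (hB : ∀ b ∈ B, 0 < b) :
    Set.InjOn (fun b => tot B / b) (B : Set ℤ) := by
  intro b hb c hc h
  have h1 := mul_inv_eq hb
  have h2 := mul_inv_eq hc
  rw [show tot B / b = tot B / c from h] at h1
  have h3 : b * (tot B / c) = c * (tot B / c) := by rw [h1, h2]
  have h4 : tot B / c ≠ 0 := by
    intro h0
    rw [h0, mul_zero] at h2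
    have := tot_pos hB
    omega
  exact mul_right_cancel₀ h4 h3

theorem inv_card {B : Finset ℤ} (hB : ∀ b ∈ B, 0 < b) : (inv B).card = B.card :=
  Finset.card_image_of_injOn (inv_injOn hB)

theorem inv_nonempty {B : Finset ℤ} (hB : B.Nonempty) : (inv B).Nonempty := hB.image _

theorem inv_pos {B : Finset ℤ} (hB : ∀ b ∈ B, 0 < b) : ∀ c ∈ inv B, 0 < c := by
  intro c hc
  obtain ⟨b, hb, rfl⟩ := Finset.mem_image.1 hc
  have h1 := mul_inv_eq hb
  have h2 := tot_pos hB
  have h3 := hB b hb
  by_contra h4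
  rw [not_lt] at h4
  have : b * (tot B / b) ≤ 0 := mul_nonpos_of_nonneg_of_nonpos h3.le h4
  omega

/-- the product sets of the complementary sets are not larger -/
theorem prodset_inv {n : ℕ} (B : Fin n → Finset ℤ) (hB : ∀ j, ∀ b ∈ B j, 0 < b) :
    (prodset fun j => inv (B j)).card ≤ (prodset B).card := by
  classical
  have hN : 0 < ∏ j, tot (B j) := Finset.prod_pos fun j _ => tot_pos (hB j)
  have key : ∀ y ∈ prodset fun j => inv (B j), ∃ z ∈ prodset B, y * z = ∏ j, tot (B j) := by
    intro y hy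
    unfold prodset at hy
    obtain ⟨f, hf, rfl⟩ := Finset.mem_image.1 hy
    rw [Fintype.mem_piFinset] at hf
    have : ∀ j, ∃ b ∈ B j, tot (B j) / b = f j := fun j => Finset.mem_image.1 (hf j)
    choose g hg hgf using this
    refine ⟨∏ j, g j, Finset.mem_image.2 ⟨g, Fintype.mem_piFinset.2 hg, rfl⟩, ?_⟩
    rw [← Finset.prod_mul_distrib]
    refine Finset.prod_congr rfl fun j _ => ?_
    rw [← hgf j, mul_comm]
    exact mul_inv_eq (hg j)
  apply Finset.card_le_card_of_injOn (fun y => (∏ j, tot (B j)) / y)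
  · intro y hy
    obtain ⟨z, hz, hyz⟩ := key y hy
    have hy0 : y ≠ 0 := by
      intro h0
      rw [h0, zero_mul] at hyz
      omega
    show (∏ j, tot (B j)) / y ∈ (prodset B : Set ℤ)
    rw [← hyz, Int.mul_ediv_cancel_left _ hy0]
    exact hz
  · intro y hy y' hy' h
    obtain ⟨z, hz, hyz⟩ := key y hy
    obtain ⟨z', hz', hyz'⟩ := key y' hy'
    have hy0 : y ≠ 0 := by
      intro h0
      rw [h0, zero_mul] at hyz
      omega
    have hy0' : y' ≠ 0 := by
      intro h0
      rw [h0, zero_mul] at hyz'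
      omega
    have h1 : (∏ j, tot (B j)) / y = z := by
      rw [← hyz, Int.mul_ediv_cancel_left _ hy0]
    have h2 : (∏ j, tot (B j)) / y' = z' := by
      rw [← hyz', Int.mul_ediv_cancel_left _ hy0']
    have h3 : z = z' := by
      rw [← h1, ← h2]
      exact h
    have hz0 : z ≠ 0 := by
      intro h0
      rw [h0, mul_zero] at hyz
      omega
    rw [← h3, ← hyz] at hyz'
    exact (mul_right_cancel₀ hz0 hyz').symm

end Pool.Agent.Y849.LW
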