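import Pool.Agent.Y849.LW.Func

/-!
The product set inequality for the functional `W`.
-/

set_option autoImplicit false

namespace Pool.Agent.Y849.LW

open Finset Pool.Agent.H384R3.SPk

theorem main_W {k n : ℕ} (hk : 2 ≤ k) (hn : 2 ≤ n) {β : ℝ} (hβ : 0 < β)
    (hcβ : ((n : ℝ) - (n - 1) * (1 / (2 * k - 1))) ^ β = 2 * k - 1)
    (A : Fin n → Finset ℤ) (hAn : ∀ i, (A i).Nonempty) (hAp : ∀ i, ∀ a ∈ A i, 0 < a) :
    ∏ i, (((A i).card : ℝ) ^ (1 + β) / W k (A i)) ^ (1 / ((n : ℝ) * β)) ≤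
      ((prodset A).card : ℝ) := by
  have hk1 : 1 ≤ k := by omega
  have hn1 : 1 ≤ n := by omega
  have hk2 : (2:ℝ) ≤ k := by exact_mod_cast hk
  have hc0 : (0:ℝ) < 2 * k - 1 := by linarith
  set c : ℝ := 1 / (2 * k - 1) with hc
  have hcpos : 0 < c := by positivity
  have hclt : c < 1 := by rw [hc, div_lt_one hc0]; linarith
  have hcβ' : ((n : ℝ) - (n - 1) * c) ^ β = 1 / c := by rw [hcβ, hc]; field_simp
  apply taskD n hn1
    (fun A => (((A).card : ℝ) ^ (1 + β) / W k (A)) ^ (1 / ((n : ℝ) * β)))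
  · intro A
    exact q_nonneg n β (Nat.cast_nonneg _) (W_nonneg hk1 A)
  · intro p A A₀ A' j hp hA0 hne0 hne' hdisj hun hv0 hv'
    have hcard : (A.card : ℝ) = A₀.card + A'.card := by
      rw [← hun, Finset.card_union_of_disjoint hdisj]; push_cast; ring
    have s0 : A₀ ⊆ A := by rw [← hun]; exact Finset.subset_union_left
    have s1 : A' ⊆ A := by rw [← hun]; exact Finset.subset_union_right
    have r0 := one_le_W hk1 hne0
    have r1 := one_le_W hk1 hne'
    have hR0 : W k A₀ ≤ W k A := W_sub hk1 s0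
    have : Fact p.Prime := ⟨hp⟩
    have hcomb := W_comb (k := k) (m := p ^ (j + 1)) hk1 (Nat.one_le_pow _ _ hp.pos) s0 s1
      (by
        intro n hn hdvd
        have hpos := hA0 n (s0 hn)
        have := (padicValInt_dvd_iff (p := p) (j + 1) n).1 (by exact_mod_cast hdvd)
        rcases this with h | h
        · omega
        · rw [hv0 n hn] at h; omega)
      (by
        intro n hn
        have h := (padicValInt_dvd_iff (p := p) (j + 1) n).2 (Or.inr (hv' n hn))
        exact_mod_cast h)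
    have hcomb' : W k A' + c * W k A₀ ≤ W k A := by
      rw [hc]
      have : 1 / (2 * (k:ℝ) - 1) * W k A₀ = W k A₀ / (2 * k - 1) := by ring
      linarith
    have := os taskE hn hcpos hclt hβ hcβ' (a₀ := (A₀.card : ℝ)) (a' := (A'.card : ℝ))
      (by exact_mod_cast hne0.card_pos) (by exact_mod_cast hne'.card_pos)
      (by linarith) (by linarith) hR0 hcomb'
    rw [← hcard] at this
    exact this
  · intro a ha
    have h1 := one_le_W hk1 (Finset.singleton_nonempty a)
    have : (({a} : Finset ℤ).card : ℝ) ^ (1 + β) / W k {a} ≤ 1 := by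
      rw [Finset.card_singleton, Nat.cast_one, Real.one_rpow, div_le_one (by linarith)]
      exact h1
    have h0 : 0 ≤ (({a} : Finset ℤ).card : ℝ) ^ (1 + β) / W k {a} :=
      div_nonneg (Real.rpow_nonneg (Nat.cast_nonneg _) _) (by linarith)
    exact Real.rpow_le_one h0 this (by positivity)
  · exact hAn
  · exact hAp

/-- the condition relating the exponent `β`, the moment `2k` and the number `n` of factors -/
def Cond (k n : ℕ) (β : ℝ) : Prop := (2 * k - 1 : ℝ) ≤ ((n : ℝ) - (n - 1) / (2 * k - 1)) ^ β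

/-- several sets -/
theorem family_W {k n : ℕ} (hk : 2 ≤ k) (hn : 2 ≤ n) {β : ℝ} (h : Cond k n β)
    (A : Fin n → Finset ℤ) (hA : ∀ i, (A i).Nonempty) (hAp : ∀ i, ∀ a ∈ A i, 0 < a) :
    ∏ i, ((A i).card : ℝ) ^ (1 + β) ≤
      (∏ i, W k (A i)) * ((prodset A).card : ℝ) ^ ((n : ℝ) * β) := by
  have hk1 : 1 ≤ k := by omega
  have hn1 : 1 ≤ n := by omega
  have hn0 : (0:ℝ) < n := by exact_mod_cast (show 0 < n by omega)
  obtain ⟨β₀, hβ₀, hle, hcrit⟩ := exists_crit hk hn h
  have hm := main_W hk hn hβ₀ hcrit A hA hAp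
  have hR : ∀ i, 1 ≤ W k (A i) := fun i => one_le_W hk1 (hA i)
  have hR0 : ∀ i, 0 < W k (A i) := fun i => by have := hR i; linarith
  have hcard : ∀ i, (1:ℝ) ≤ (A i).card := fun i => by exact_mod_cast (hA i).card_pos
  have hPpos : (1:ℝ) ≤ (prodset A).card := by
    have := card_le_prodset hn1 A hA hAp ⟨0, by omega⟩
    have h2 := (hA ⟨0, by omega⟩).card_pos
    exact_mod_cast (by omega : 1 ≤ (prodset A).card)
  set P : ℝ := ((prodset A).card : ℝ) with hP
  have h2 := Real.rpow_le_rpow (Finset.prod_nonneg fun i _ => by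
    have := hR0 i; positivity) hm (show 0 ≤ (n:ℝ) * β₀ by positivity)
  rw [← Real.finsetProd_rpow _ _ (fun i _ => by have := hR0 i; positivity)] at h2
  have e1 : ∀ i ∈ (Finset.univ : Finset (Fin n)),
      ((((A i).card : ℝ) ^ (1 + β₀) / W k (A i)) ^ (1 / ((n : ℝ) * β₀))) ^ ((n:ℝ) * β₀) =
        ((A i).card : ℝ) ^ (1 + β₀) / W k (A i) := by
    intro i _
    have := hR0 i
    rw [← Real.rpow_mul (by positivity)]
    have : 1 / ((n : ℝ) * β₀) * (n * β₀) = 1 := by field_simp
    rw [this, Real.rpow_one]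
  rw [Finset.prod_congr rfl e1, Finset.prod_div_distrib,
    div_le_iff₀ (Finset.prod_pos fun i _ => hR0 i)] at h2
  have h3 : ∏ i, ((A i).card : ℝ) ^ (β - β₀) ≤ P ^ ((n:ℝ) * (β - β₀)) := by
    calc ∏ i, ((A i).card : ℝ) ^ (β - β₀) ≤ ∏ _i : Fin n, P ^ (β - β₀) := by
          apply Finset.prod_le_prod
          · intro i _; have := hcard i; positivity
          · intro i _
            apply Real.rpow_le_rpow (by positivity) _ (by linarith)
            rw [hP]
            exact_mod_cast card_le_prodset hn1 A hA hAp i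
      _ = _ := by
          rw [Finset.prod_const, Finset.card_univ, Fintype.card_fin, ← Real.rpow_natCast,
            ← Real.rpow_mul (by positivity), mul_comm]
  have e2 : ∏ i, ((A i).card : ℝ) ^ (1 + β) =
      (∏ i, ((A i).card : ℝ) ^ (1 + β₀)) * ∏ i, ((A i).card : ℝ) ^ (β - β₀) := by
    rw [← Finset.prod_mul_distrib]
    refine Finset.prod_congr rfl fun i _ => ?_
    have := hcard i
    rw [← Real.rpow_add (by linarith)]
    congr 1; ring
  have e3 : P ^ ((n:ℝ) * β) = P ^ ((n:ℝ) * β₀) * P ^ ((n:ℝ) * (β - β₀)) := by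
    rw [← Real.rpow_add (by linarith)]; congr 1; ring
  rw [e2, e3]
  calc _ ≤ (P ^ ((n:ℝ) * β₀) * ∏ i, W k (A i)) * P ^ ((n:ℝ) * (β - β₀)) := by
        apply mul_le_mul h2 h3
        · exact Finset.prod_nonneg fun i _ => by have := hcard i; positivity
        · have : 0 ≤ ∏ i, W k (A i) := Finset.prod_nonneg fun i _ => (hR0 i).le
          positivity
    _ = _ := by ring

theorem Cond.pos {k n : ℕ} (hk : 2 ≤ k) (hn : 2 ≤ n) {β : ℝ} (h : Cond k n β) : 0 < β := by
  obtain ⟨β₀, hβ₀, hle, _⟩ := exists_crit hk hn h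
  linarith

/-- one set -/
theorem single_W {k n : ℕ} (hk : 2 ≤ k) (hn : 2 ≤ n) {β : ℝ} (h : Cond k n β)
    (A : Finset ℤ) (hA : A.Nonempty) (hAp : ∀ a ∈ A, 0 < a) :
    (A.card : ℝ) ^ (1 + β) ≤ W k A * ((prodset fun _ : Fin n => A).card : ℝ) ^ β := by
  have hf := family_W hk hn h (fun _ => A) (fun _ => hA) fun _ => hAp
  have hβ := h.pos hk hn
  simp only [Finset.prod_const, Finset.card_univ, Fintype.card_fin] at hf
  have hW : 0 ≤ W k A := W_nonneg (by omega) A
  have hn0 : n ≠ 0 := by omega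
  set P : ℝ := ((prodset fun _ : Fin n => A).card : ℝ) with hP
  have hP0 : 0 ≤ P := by rw [hP]; positivity
  have e : P ^ ((n : ℝ) * β) = (P ^ β) ^ n := by
    rw [← Real.rpow_natCast, ← Real.rpow_mul hP0, mul_comm]
  rw [e, ← mul_pow] at hf
  exact le_of_pow_le_pow_left₀ hn0 (by positivity) hf

end Pool.Agent.Y849.LW
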